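import Mathlib

set_option autoImplicit false

open Set Filter Topology

namespace Pool.Agent.H.MP_b12a75

/-- other residues -/
def res (n m : ℕ) : Set ℕ := {x | x % (m + 1) ≠ n % (m + 1)}

/-- crowded algebras -/
def Alg (L : Set (Set ℕ)) : Prop := (∀ n m, res n m ∈ L) ∧ (∀ A ∈ L, Aᶜ ∈ L) ∧
  (∀ A ∈ L, ∀ B ∈ L, A ∩ B ∈ L) ∧ ∀ A ∈ L, A.Nonempty → A.Infinite

lemma exL : ∃ L, Maximal Alg L := by
  refine (zorn_subset_nonempty {L | Alg L} (fun c h1 h2 ⟨M, m⟩ => ⟨⋃₀ c, ⟨fun n k => ⟨M, m,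
    (h1 m).1 n k⟩, fun A ⟨L, a, b⟩ => ⟨L, a, (h1 a).2.1 A b⟩, fun A ⟨L, a, b⟩ B ⟨M, d, e⟩ => ?_,
      fun A ⟨L, a, b⟩ => (h1 a).2.2.2 A b⟩, fun _ => subset_sUnion_of_mem⟩)
    {A | ∃ m, ∀ x k, x + k * (m + 1) ∈ A ↔ x ∈ A} ⟨fun n m => ⟨m, fun x k => by simp [res]⟩,
      fun A ⟨m, h⟩ => ⟨m, fun x k => not_congr (h x k)⟩, fun A ⟨m, h⟩ B ⟨n, g⟩ =>
        ⟨m * n + m + n, fun x k => and_congr (by rw [← h x (k * (n + 1))]; ring_nf)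
          (by rw [← g x (k * (m + 1))]; ring_nf)⟩, fun A ⟨m, h⟩ ⟨x, a⟩ =>
            infinite_of_forall_exists_gt fun n => ⟨_, (h x (n + 1)).2 a, by nlinarith⟩⟩).imp
              fun _ h => h.2
  rcases h2.total a d with k | k
  exacts [⟨M, d, (h1 d).2.2.1 A (k b) B e⟩, ⟨L, a, (h1 a).2.2.1 A b B (k e)⟩]

variable {L : Set (Set ℕ)}

lemma Alg.emp (h : Alg L) : ∅ ∈ L := by simpa using h.2.2.1 _ (h.1 0 0) _ (h.2.1 _ (h.1 0 0))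
lemma Alg.top (h : Alg L) : univ ∈ L := by simpa using h.2.1 _ h.emp

lemma mx (h : Maximal Alg L) {C : Set ℕ} (h1 : ∀ A ∈ L, (A ∩ C).Nonempty → (A ∩ C).Infinite)
    (h2 : ∀ A ∈ L, (A ∩ Cᶜ).Nonempty → (A ∩ Cᶜ).Infinite) : C ∈ L := by
  have k : ∀ A ∈ L, A ∈ {D | ∃ A ∈ L, ∃ B ∈ L, D = A ∩ C ∪ B ∩ Cᶜ} := fun A a =>
    ⟨A, a, A, a, (inter_union_compl _ _).symm⟩
  refine h.2 ⟨fun n m => k _ (h.1.1 n m), ?_, ?_, ?_⟩ k ⟨_, h.1.top, _, h.1.emp, by simp⟩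
  · rintro _ ⟨A, a, B, b, rfl⟩
    exact ⟨_, h.1.2.1 A a, _, h.1.2.1 B b, by ext x; by_cases x ∈ C <;> simp [*]⟩
  · rintro _ ⟨A, a, B, b, rfl⟩ _ ⟨D, d, E, e, rfl⟩
    exact ⟨_, h.1.2.2.1 A a D d, _, h.1.2.2.1 B b E e, by ext x; by_cases x ∈ C <;> simp [*]⟩
  · rintro _ ⟨A, a, B, b, rfl⟩ e
    exact infinite_union.2 ((union_nonempty.1 e).imp (h1 A a) (h2 B b))

/-- ultrafilters far from every integer -/
def R0 (u : Ultrafilter ℕ) : Prop := ∀ n, ∃ m, res n m ∈ u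

/-- small sets -/
def Good (L : Set (Set ℕ)) (N : Set ℕ) : Prop := ∃ Z : Set (ℕ → Set ℕ), Z.Countable ∧
  (∀ A ∈ Z, (∀ j, A j ∈ L) ∧ ∀ n ∈ N, ∃ j, n ∉ A j) ∧ ∀ u, R0 u → ∃ A ∈ Z, ∀ j, A j ∈ u

lemma Good.mono {N M : Set ℕ} (h : Good L N) (e : M ⊆ N) : Good L M :=
  h.imp fun _ h => ⟨h.1, fun A a => ⟨(h.2.1 A a).1, fun n b => (h.2.1 A a).2 n (e b)⟩, h.2.2⟩

lemma Alg.pt (h : Alg L) (n : ℕ) : Good L {n} := ⟨range fun m _ => res n m, countable_range _, by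
  rintro _ ⟨m, rfl⟩; exact ⟨fun _ => h.1 n m, by simp [res]⟩,
    fun u hu => (hu n).elim fun m a => ⟨_, ⟨m, rfl⟩, fun _ => a⟩⟩

lemma Alg.un (h : Alg L) {N M : Set ℕ} : Good L N → Good L M → Good L (N ∪ M) := by
  rintro ⟨Z, z1, z2, z3⟩ ⟨Y, y1, y2, y3⟩
  refine ⟨_, z1.image2 y1 fun A B j => A j ∩ B j, ?_, fun u hu => ?_⟩
  · rintro _ ⟨A, a, B, b, rfl⟩
    exact ⟨fun j => h.2.2.1 _ ((z2 A a).1 j) _ ((y2 B b).1 j), fun n e => e.elim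
      (fun e => ((z2 A a).2 n e).imp fun _ k d => k d.1) fun e =>
        ((y2 B b).2 n e).imp fun _ k d => k d.2⟩
  · obtain ⟨A, a, b⟩ := z3 u hu
    obtain ⟨B, d, e⟩ := y3 u hu
    exact ⟨_, ⟨A, a, B, d, rfl⟩, fun j => inter_mem (b j) (e j)⟩

lemma Alg.cov (h : Alg L) {N : Set ℕ} (e : ∀ n ∈ N, ∃ B ∈ L, n ∈ B ∧ Good L (N ∩ B)) :
    Good L N := by
  have : ∀ n, ∃ B ∈ L, (n ∈ N → n ∈ B) ∧ Good L (N ∩ B) := fun n => by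
    by_cases a : n ∈ N
    · simpa [a] using e n a
    · exact ⟨∅, h.emp, fun b => (a b).elim, (h.pt 0).mono (by simp)⟩
  choose B b1 b2 Z z1 z2 z3 using this
  refine ⟨insert (fun j => (B j)ᶜ) (⋃ k, (fun A j => A j ∩ B k) '' Z k),
    (countable_iUnion fun k => (z1 k).image _).insert _, ?_, fun u hu => ?_⟩
  · rintro _ (rfl | ⟨_, ⟨k, rfl⟩, A, a, rfl⟩)
    · exact ⟨fun j => h.2.1 _ (b1 j), fun n a => ⟨n, fun k => k (b2 n a)⟩⟩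
    · refine ⟨fun j => h.2.2.1 _ ((z2 k A a).1 j) _ (b1 k), fun n d => ?_⟩
      by_cases e : n ∈ B k
      exacts [((z2 k A a).2 n ⟨d, e⟩).imp fun _ k d => k d.1, ⟨0, fun k => e k.2⟩]
  · by_cases a : ∃ k, B k ∈ u
    · obtain ⟨k, a⟩ := a
      obtain ⟨A, b, d⟩ := z3 k u hu
      exact ⟨_, .inr (mem_iUnion.2 ⟨k, A, b, rfl⟩), fun j => inter_mem (d j) a⟩
    · exact ⟨_, .inl rfl, fun j => Ultrafilter.compl_mem_iff_notMem.2 fun k => a ⟨j, k⟩⟩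

lemma Alg.baire (h : Alg L) {G : Filter ℕ} (g : ∀ C ∈ L, C.Nonempty → ∀ D ∈ G, (C ∩ D).Nonempty)
    {A : Set ℕ} (a1 : A ∈ L) (a2 : A.Nonempty) (P : ℕ → Set ℕ → Prop)
    (p : ∀ k, ∀ C ∈ L, C.Nonempty → C ⊆ A → ∃ D ∈ L, (C ∩ D).Nonempty ∧ P k D) :
    ∃ u : Ultrafilter ℕ, ↑u ≤ G ∧ R0 u ∧ ∀ k, ∃ D ∈ u, P k D := by
  have : ∀ k (C : {C // C ∈ L ∧ C.Nonempty ∧ C ⊆ A}), ∃ C' : {C // C ∈ L ∧ C.Nonempty ∧ C ⊆ A},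
      C'.1 ⊆ C.1 ∧ (∃ m, C'.1 ⊆ res k m) ∧ ∃ D, C'.1 ⊆ D ∧ P k D := fun k ⟨C, c1, c2, c3⟩ => by
    obtain ⟨D, d1, d2, d3⟩ := p k C c1 c2 c3
    obtain ⟨x, x1, x2⟩ := (h.2.2.2 _ (h.2.2.1 C c1 D d1) d2).exists_gt k
    exact ⟨⟨_, h.2.2.1 _ (h.2.2.1 C c1 D d1) _ (h.1 k x), ⟨x, x1, by
      rw [res, mem_ofPred, Nat.mod_eq_of_lt, Nat.mod_eq_of_lt] <;> omega⟩, fun _ e => c3 e.1.1⟩,
        fun _ e => e.1.1, ⟨x, inter_subset_right⟩, D, fun _ e => e.1.2, d3⟩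
  choose f f1 f2 f3 using this
  let C : ℕ → {C // C ∈ L ∧ C.Nonempty ∧ C ⊆ A} := fun k => Nat.rec ⟨A, a1, a2, subset_rfl⟩ f k
  have m : Antitone fun k => (C k).1 := antitone_nat_of_succ_le fun k => f1 k _
  have : NeBot (⨅ k, 𝓟 (C k).1 ⊓ G) := iInf_neBot_of_directed (Antitone.directed_ge
    fun i j e => inf_le_inf_right _ (principal_mono.2 (m e))) fun k => by
      rw [inf_comm, inf_principal_neBot_iff]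
      exact fun D d => inter_comm _ _ ▸ g _ (C k).2.1 (C k).2.2.1 D d
  have k := fun k => (Ultrafilter.of_le (⨅ k, 𝓟 (C k).1 ⊓ G)).trans (iInf_le _ k)
  have l := fun j => le_principal_iff.1 ((k j).trans inf_le_left)
  exact ⟨_, (k 0).trans inf_le_right, fun n => (f2 n _).imp fun _ => mem_of_superset (l (n + 1)),
    fun n => (f3 n _).imp fun _ e => ⟨mem_of_superset (l (n + 1)) e.1, e.2⟩⟩

lemma Alg.bad (h : Alg L) {A : Set ℕ} (a1 : A ∈ L) (a2 : A.Nonempty) : ¬ Good L A := by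
  rintro ⟨Z, z1, z2, z3⟩
  obtain ⟨f, hf⟩ := countable_iff_exists_subset_range.1 z1
  obtain ⟨u, -, u1, u2⟩ := h.baire (G := ⊤) (by simp +contextual) a1 a2
    (fun k D => f k ∈ Z → ∃ j, D = (f k j)ᶜ) fun k C _ ⟨n, c2⟩ c3 => by
      by_cases e : f k ∈ Z
      · obtain ⟨j, hj⟩ := (z2 _ e).2 n (c3 c2)
        exact ⟨_, h.2.1 _ ((z2 _ e).1 j), ⟨n, c2, hj⟩, fun _ => ⟨j, rfl⟩⟩
      · exact ⟨_, h.top, ⟨n, c2, trivial⟩, fun a => (e a).elim⟩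
  obtain ⟨B, b1, b2⟩ := z3 u u1
  obtain ⟨k, rfl⟩ := hf b1
  obtain ⟨_, d1, d2⟩ := u2 k
  obtain ⟨j, rfl⟩ := d2 b1
  exact Ultrafilter.compl_mem_iff_notMem.1 d1 (b2 j)

lemma ker (h : Alg L) (S : Set ℕ) : ∃ K ⊆ S, Good L (S \ K) ∧
    ∀ A ∈ L, (A ∩ K).Nonempty → (A ∩ K).Infinite := by
  have e : Good L (S \ {n | ∀ A ∈ L, n ∈ A → ¬ Good L (S ∩ A)}) := h.cov fun n hn => by
    obtain ⟨B, b⟩ := not_forall.1 hn.2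
    push Not at b
    exact ⟨B, b.1, b.2.1, b.2.2.mono (inter_subset_inter_left _ sdiff_subset)⟩
  refine ⟨S ∩ {n | ∀ A ∈ L, n ∈ A → ¬ Good L (S ∩ A)}, inter_subset_left, by rwa [sdiff_self_inter],
    fun A a ⟨n, b⟩ f => b.2.2 A a b.1 ((h.un e (f.induction_on (motive := fun s _ => Good L s) _
      ((h.pt 0).mono (by simp)) fun _ _ => h.un (h.pt _))).mono fun x d => ?_)⟩
  exact or_iff_not_imp_left.2 fun k => ⟨d.2, d.1, not_not.1 fun e => k ⟨d.1, e⟩⟩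

lemma appr (h : Maximal Alg L) (S : Set ℕ) : ∃ C ∈ L, Good L {n | ¬ (n ∈ S ↔ n ∈ C)} := by
  obtain ⟨K, k1, k2, k3⟩ := ker h.1 S
  obtain ⟨M, m1, m2, m3⟩ := ker h.1 Sᶜ
  refine ⟨{n | (∀ A ∈ L, n ∈ A → (A ∩ K).Nonempty) ∧ n ∉ M}, mx h (fun A a ⟨n, b⟩ =>
    (k3 A a (b.2.1 A a b.1)).mono fun x d => ⟨d.1, fun B _ e => ⟨x, e, d.2⟩,
      fun e => m1 e (k1 d.2)⟩) fun A a ⟨n, b, d⟩ => ?_, (h.1.un k2 m2).mono fun n a => ?_⟩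
  · rcases not_and_or.1 d with d | d
    · push Not at d
      obtain ⟨B, b1, b2, b3⟩ := d
      exact (h.1.2.2.2 _ (h.1.2.2.1 A a B b1) ⟨n, b, b2⟩).mono fun x e =>
        ⟨e.1, fun k => (k.1 B b1 e.2).ne_empty b3⟩
    · exact (m3 A a ⟨n, b, not_not.1 d⟩).mono fun x e => ⟨e.1, fun k => k.2 e.2⟩
  · by_cases e : n ∈ S
    · exact .inl ⟨e, fun k => a (iff_of_true e ⟨fun B _ b => ⟨n, b, k⟩, fun k => m1 k e⟩)⟩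
    · exact .inr ⟨e, fun k => a (iff_of_false e fun b => b.2 k)⟩

end Pool.Agent.H.MP_b12a75
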